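import Mathlib

/-!
# An element of a monad without a divisor in a smaller monad

In the ultrapower of a large ultrapower along an ultrafilter `G` on the positive integers, the
divisors of the class `y` of the identity are given by functions `g` with `g n ∣ n`, so that the
ultrafilters of the divisors of `y` are images of `G`.  If `G` is maximal for divisibility of
ultrafilters, then every ultrafilter `F` divides `G`, but some `F` is not an image of `G`.
-/

set_option autoImplicit false

namespace Pool.Agent.Results.MP_c54df4_lc.NoDivisor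

open Filter

/-- The set of the multiples of the elements of `A`. -/
def up (A : Set ℕ+) : Set ℕ+ := {n | ∃ a ∈ A, a ∣ n}

/-- Divisibility of ultrafilters. -/
def TildeDvd (F G : Ultrafilter ℕ+) : Prop := ∀ A ∈ F, up A ∈ G

/-- A family of sets has the finite intersection property. -/
def FIP {T : Type} (𝒜 : Set (Set T)) : Prop := ∀ 𝒯 ⊆ 𝒜, 𝒯.Finite → (⋂₀ 𝒯).Nonempty

/-- The ultrapowers along `E` form an enlargement: for every set `T` and every family of subsets of
`T` with the finite intersection property, some element of the ultrapower of `T` lies in the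
extensions of all members of the family. -/
def IsEnlargement {I : Type 1} (E : Ultrafilter I) : Prop :=
  ∀ (T : Type) (𝒜 : Set (Set T)), FIP 𝒜 →
    ∃ t : Germ (E : Filter I) T, ∀ A ∈ 𝒜, t.LiftPred (· ∈ A)

/-- The monad of an ultrafilter `F` in the ultrapower of the positive integers along `E`. -/
def monad {I : Type 1} (E : Ultrafilter I) (F : Ultrafilter ℕ+) : Set (Germ (E : Filter I) ℕ+) :=
  {x | ∀ A ∈ F, x.LiftPred (· ∈ A)}

/-! ## A maximal ultrafilter -/

theorem exists_max : ∃ G : Ultrafilter ℕ+, ∀ a : ℕ+, {n | a ∣ n} ∈ G := by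
  let f : ℕ+ → Filter ℕ+ := fun a => 𝓟 {n | a ∣ n}
  have hdir : Directed (· ≥ ·) f := by
    intro a b
    refine ⟨a * b, ?_, ?_⟩
    · simp only [f, ge_iff_le, le_principal_iff, mem_principal]
      intro n h2
      exact (dvd_mul_right a b).trans h2
    · simp only [f, ge_iff_le, le_principal_iff, mem_principal]
      intro n h2
      exact (dvd_mul_left b a).trans h2
  have hne : (⨅ a, f a).NeBot :=
    iInf_neBot_of_directed' hdir fun a => principal_neBot_iff.2 ⟨a, dvd_rfl⟩
  exact ⟨Ultrafilter.of (⨅ a, f a), fun a => Ultrafilter.of_le _ (mem_iInf_of_mem a (mem_principal_self _))⟩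

/-! ## An ultrafilter that is not an image of a given one -/

/-- The countable index set of the independent family. -/
abbrev T₀ : Type := Σ n : ℕ, Finset (Fin n → ℕ+)

/-- The independent family. -/
def Cg (g : ℕ+ → ℕ+) : Set T₀ := {t | (fun i : Fin t.1 => g (Nat.succPNat i)) ∈ t.2}

theorem exists_sep (Γ : Set (ℕ+ → ℕ+)) (hΓ : Γ.Finite) : ∃ n : ℕ, ∀ g ∈ Γ, ∀ g' ∈ Γ,
    (fun i : Fin n => g (Nat.succPNat i)) = (fun i : Fin n => g' (Nat.succPNat i)) → g = g' := by
  have h1 : ∀ p : (ℕ+ → ℕ+) × (ℕ+ → ℕ+), ∃ n : ℕ, ∀ m ≥ n,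
      (fun i : Fin m => p.1 (Nat.succPNat i)) = (fun i : Fin m => p.2 (Nat.succPNat i)) →
      p.1 = p.2 := by
    rintro ⟨g, g'⟩
    by_cases h : g = g'
    · exact ⟨0, fun m _ _ => h⟩
    · obtain ⟨k, hk⟩ := Function.ne_iff.1 h
      refine ⟨k.natPred + 1, fun m hm heq => absurd ?_ hk⟩
      have := congrFun heq ⟨k.natPred, by omega⟩
      simpa using this
  choose N hN using h1
  obtain ⟨n, hn⟩ := ((hΓ.prod hΓ).image N).bddAbove
  exact ⟨n, fun g hg g' hg' => hN (g, g') n (hn ⟨(g, g'), ⟨hg, hg'⟩, rfl⟩)⟩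

theorem exists_not_image (G : Ultrafilter ℕ+) :
    ∃ F : Ultrafilter ℕ+, ∀ g : ℕ+ → ℕ+, F ≠ G.map g := by
  classical
  obtain ⟨e⟩ : Nonempty (T₀ ≃ ℕ+) := nonempty_equiv_of_countable
  let D : (ℕ+ → ℕ+) → Set ℕ+ := fun g => e '' (if e '' Cg g ∈ G.map g then (Cg g)ᶜ else Cg g)
  have hne : (⨅ g, 𝓟 (D g)).NeBot := by
    rw [(hasBasis_iInf_principal_finite D).neBot_iff]
    intro Γ hΓ
    obtain ⟨n, hn⟩ := exists_sep Γ hΓ
    let r : (ℕ+ → ℕ+) → (Fin n → ℕ+) := fun g i => g (Nat.succPNat i)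
    have hfin : (r '' {g ∈ Γ | e '' Cg g ∉ G.map g}).Finite := (hΓ.subset (Set.sep_subset _ _)).image _
    refine ⟨e ⟨n, hfin.toFinset⟩, ?_⟩
    rw [Set.mem_iInter₂]
    intro g hg
    refine ⟨_, ?_, rfl⟩
    by_cases h : e '' Cg g ∈ G.map g
    · rw [if_pos h]
      intro hmem
      have hmem' : r g ∈ hfin.toFinset := hmem
      rw [Set.Finite.mem_toFinset] at hmem'
      obtain ⟨g', ⟨hg', hG⟩, heq⟩ := hmem'
      have := hn g' hg' g hg heq
      rw [this] at hG
      exact hG h
    · rw [if_neg h]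
      change r g ∈ hfin.toFinset
      rw [Set.Finite.mem_toFinset]
      exact ⟨g, ⟨hg, h⟩, rfl⟩
  refine ⟨Ultrafilter.of (⨅ g, 𝓟 (D g)), fun g hg => ?_⟩
  have h1 : D g ∈ Ultrafilter.of (⨅ g, 𝓟 (D g)) :=
    Ultrafilter.of_le _ (mem_iInf_of_mem g (mem_principal_self _))
  rw [hg] at h1
  by_cases h : e '' Cg g ∈ G.map g
  · have h2 : D g = (e '' Cg g)ᶜ := by
      simp only [D]
      rw [if_pos h, Set.image_compl_eq e.bijective]
    rw [h2] at h1
    exact Ultrafilter.compl_mem_iff_notMem.1 h1 h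
  · have h2 : D g = e '' Cg g := by
      simp only [D]
      rw [if_neg h]
    rw [h2] at h1
    exact h h1

/-! ## The large ultrafilter -/

/-- The type of all families of subsets of small sets with the finite intersection property. -/
abbrev K : Type 1 := Σ T : Type, {𝒜 : Set (Set T) // FIP 𝒜}

/-- The first index set. -/
abbrev I₁ : Type 1 := (k : K) → k.1

instance genNeBot (k : K) : (generate k.2.1).NeBot := generate_neBot_iff.2 fun _ h1 h2 => k.2.2 _ h1 h2

/-- The first ultrafilter. -/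
noncomputable def E₁ : Ultrafilter I₁ := Ultrafilter.of (Filter.pi fun k : K => generate k.2.1)

/-- The product of `G` and the first ultrafilter. -/
noncomputable def E (G : Ultrafilter ℕ+) : Ultrafilter (ℕ+ × I₁) :=
  G.bind fun n => E₁.map fun i => (n, i)

theorem mem_E {G : Ultrafilter ℕ+} {A : Set (ℕ+ × I₁)} :
    A ∈ E G ↔ ∀ᶠ n in (G : Filter ℕ+), ∀ᶠ i in (E₁ : Filter I₁), (n, i) ∈ A := Iff.rfl

theorem isEnlargement_E (G : Ultrafilter ℕ+) : IsEnlargement (E G) := by
  intro T 𝒜 h𝒜
  let k : K := ⟨T, 𝒜, h𝒜⟩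
  refine ⟨((fun i : ℕ+ × I₁ => i.2 k : ℕ+ × I₁ → T) : Germ _ T), fun A hA => ?_⟩
  rw [Germ.liftPred_coe]
  change {i : ℕ+ × I₁ | i.2 k ∈ A} ∈ E G
  rw [mem_E]
  refine Eventually.of_forall fun n => ?_
  have h1 : (E₁ : Filter I₁) ≤ Filter.pi fun k : K => generate k.2.1 := Ultrafilter.of_le _
  exact (tendsto_eval_pi (fun k : K => generate k.2.1) k).mono_left h1 (mem_generate_of_mem hA)

/-- There are an enlargement (given by ultrapowers), ultrafilters `F` and `G` such that `F` divides
`G`, and an element `y` of the monad of `G` that is not divisible by any element of the monad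
of `F`. -/
theorem result : ∃ (I : Type 1) (E : Ultrafilter I), IsEnlargement E ∧
    ∃ F G : Ultrafilter ℕ+, TildeDvd F G ∧ ∃ y ∈ monad E G, ∀ x ∈ monad E F, ¬ x ∣ y := by
  classical
  obtain ⟨G, hG⟩ := exists_max
  obtain ⟨F, hF⟩ := exists_not_image G
  refine ⟨_, E G, isEnlargement_E G, F, G, ?_, ?_⟩
  · intro A hA
    obtain ⟨a, ha⟩ := F.nonempty_of_mem hA
    exact mem_of_superset (hG a) fun n hn => ⟨a, ha, hn⟩
  · refine ⟨((fun i : ℕ+ × I₁ => i.1 : ℕ+ × I₁ → ℕ+) : Germ _ ℕ+), ?_, ?_⟩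
    · intro A hA
      rw [Germ.liftPred_coe]
      change {i : ℕ+ × I₁ | i.1 ∈ A} ∈ E G
      rw [mem_E]
      filter_upwards [hA] with n hn
      exact Eventually.of_forall fun i => hn
    · intro x hx hdvd
      obtain ⟨f, rfl⟩ := Quotient.exists_rep x
      obtain ⟨z, hz⟩ := hdvd
      obtain ⟨z, rfl⟩ := Quotient.exists_rep z
      have hz' : ∀ᶠ i in (E G : Filter (ℕ+ × I₁)), i.1 = f i * z i := Quotient.exact hz
      have hdiv : {i : ℕ+ × I₁ | f i ∣ i.1} ∈ E G := by
        filter_upwards [hz'] with i hi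
        exact ⟨z i, hi⟩
      rw [mem_E] at hdiv
      -- the value is constant along the first ultrafilter
      have hconst : ∀ᶠ n in (G : Filter ℕ+), ∃ c : ℕ+, ∀ᶠ i in (E₁ : Filter I₁), f (n, i) = c := by
        filter_upwards [hdiv] with n hn
        by_contra hcon
        push Not at hcon
        have hfin : (Set.Iic n).Finite := Set.finite_Iic n
        have h1 : (⋂ c ∈ Set.Iic n, {i : I₁ | f (n, i) = c}ᶜ) ∈ E₁ := by
          have := (Filter.biInter_mem (f := (E₁ : Filter I₁))
            (s := fun c => {i : I₁ | f (n, i) = c}ᶜ) hfin).2 fun c _ => hcon c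
          exact this
        obtain ⟨i, hi1, hi2⟩ := E₁.nonempty_of_mem (inter_mem h1 hn)
        have hle : f (n, i) ≤ n := PNat.le_of_dvd hi2
        exact Set.mem_iInter₂.1 hi1 (f (n, i)) hle rfl
      let g : ℕ+ → ℕ+ := fun n =>
        if h : ∃ c : ℕ+, ∀ᶠ i in (E₁ : Filter I₁), f (n, i) = c then h.choose else 1
      have hg : ∀ᶠ n in (G : Filter ℕ+), ∀ᶠ i in (E₁ : Filter I₁), f (n, i) = g n := by
        filter_upwards [hconst] with n hn
        have : g n = hn.choose := dif_pos hn
        rw [this]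
        exact hn.choose_spec
      apply hF g
      refine (Ultrafilter.coe_le_coe.1 ?_).symm
      intro A hA
      have h1 : {i : ℕ+ × I₁ | f i ∈ A} ∈ E G := hx A hA
      rw [mem_E] at h1
      change g ⁻¹' A ∈ G
      filter_upwards [h1, hg] with n hn1 hn2
      obtain ⟨i, hi1, hi2⟩ := (hn1.and hn2).exists
      change g n ∈ A
      rw [← hi2]
      exact hi1

end Pool.Agent.Results.MP_c54df4_lc.NoDivisor
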